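import Pool.Agent.H89.NV.TU2

/-!
# FIB: the middle coefficients for a product
-/

set_option autoImplicit false

open MeasureTheory Set Filter NumberField NumberField.InfinitePlace
open Pool.Agent.H65.CM4 Pool.Agent.H61.NVK Pool.Agent.H89.NV
open scoped Real

namespace Pool.Agent.H26.NVK

variable (k : Type) [Field k]

theorem mem_two (J : Ideal (𝓞 k)) (x : 𝓞 k) : x ∈ ni k 2 * J ↔ ∃ a ∈ J, 2 * a = x := by
  unfold ni
  rw [Ideal.mem_span_singleton_mul]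
  simp

theorem ni_two_ne [NumberField k] : ni k 2 ≠ ⊥ := by
  unfold ni
  rw [Ne, Ideal.span_singleton_eq_bot]
  simp

theorem mem_bs (f A : Ideal (𝓞 k)) (D b : 𝓞 k) : b ∈ bs f A D ↔
    b ∈ Rs (ni k 2 * (A * f)) ∧ b ∈ f ∧ b ^ 2 + D ∈ ni k 4 * (A * f ^ 2) := by
  classical
  unfold bs
  rw [Finset.mem_filter]

theorem mem_rts (f I A : Ideal (𝓞 k)) (b c j : 𝓞 k) : j ∈ rts f I A b c ↔
    j ∈ Rs (I * (A * f)) ∧ j ∈ A * f ∧ j ^ 2 + b * j + c ∈ I * (A * f ^ 2) := by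
  classical
  unfold rts
  rw [Finset.mem_filter]

variable [NumberField k] [IsTotallyReal k]

theorem pf_FIB (hRSB : T_RSB k) (_hIDL : T_IDL k) (hTRV : T_TRV k) : T_FIB k := by
  classical
  intro f P A D G hf hP hA hG
  have hR : ∀ I : Ideal (𝓞 k), I ≠ ⊥ → ∀ r r', r ∈ Rs I → r' ∈ Rs I → r - r' ∈ I → r = r' := by
    intro I hI r r' hr hr' h
    obtain ⟨u, -, hu⟩ := (hRSB.1 I hI).1 r
    rw [hu r ⟨hr, by rw [sub_self]; exact I.zero_mem⟩, hu r' ⟨hr', h⟩]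
  have hAf : A * f ≠ ⊥ := mul_ne_zero hA hf
  have hPA : P * A ≠ ⊥ := mul_ne_zero hP hA
  have h2Af : ni k 2 * (A * f) ≠ ⊥ := mul_ne_zero (ni_two_ne k) hAf
  have hPAf : P * (A * f) ≠ ⊥ := mul_ne_zero hP hAf
  have h2PAf : ni k 2 * (P * A * f) ≠ ⊥ := mul_ne_zero (ni_two_ne k) (mul_ne_zero hPA hf)
  have hassoc : P * A * f = P * (A * f) := mul_assoc _ _ _
  have hassoc2 : P * A * f ^ 2 = P * (A * f ^ 2) := mul_assoc _ _ _
  have hle1 : P * (A * f) ≤ A * f := Ideal.mul_le_right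
  have hle2 : P * (A * f ^ 2) ≤ A * f ^ 2 := Ideal.mul_le_right
  have hlef : A * f ≤ f := Ideal.mul_le_right
  -- the pairs
  set S : Finset (Σ _ : 𝓞 k, 𝓞 k) :=
    (bs f A D).sigma (fun b => rts f P A b (q4 (b ^ 2 + D))) with hS
  have memS : ∀ p : (Σ _ : 𝓞 k, 𝓞 k), p ∈ S ↔
      p.1 ∈ bs f A D ∧ p.2 ∈ rts f P A p.1 (q4 (p.1 ^ 2 + D)) := by
    intro p
    rw [hS, Finset.mem_sigma]
  -- uniqueness
  have huniq : ∀ p ∈ S, ∀ p' ∈ S, (p.1 + 2 * p.2) - (p'.1 + 2 * p'.2) ∈ ni k 2 * (P * A * f) →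
      p = p' := by
    rintro ⟨b, j⟩ hp ⟨b', j'⟩ hp' h
    obtain ⟨h1, h2⟩ := (memS _).1 hp
    obtain ⟨h1', h2'⟩ := (memS _).1 hp'
    obtain ⟨a1, -, -⟩ := (mem_bs k _ _ _ _).1 h1
    obtain ⟨a1', -, -⟩ := (mem_bs k _ _ _ _).1 h1'
    obtain ⟨c1, c2, -⟩ := (mem_rts k _ _ _ _ _ _).1 h2
    obtain ⟨c1', c2', -⟩ := (mem_rts k _ _ _ _ _ _).1 h2'
    simp only at a1 a1' c1 c1' c2 c2' h
    obtain ⟨z, hz, hz2⟩ := (mem_two k _ _).1 h
    rw [hassoc] at hz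
    have hb : b = b' := by
      refine hR _ h2Af b b' a1 a1' ((mem_two k _ _).2 ⟨z - j + j', ?_, ?_⟩)
      · exact add_mem (sub_mem (hle1 hz) c2) c2'
      · linear_combination hz2
    subst hb
    have hj : j = j' := by
      refine hR _ hPAf j j' c1 c1' ?_
      have : z = j - j' := by
        have h2 : (2 : 𝓞 k) ≠ 0 := two_ne_zero
        apply mul_left_cancel₀ h2
        linear_combination hz2
      rwa [← this]
    rw [hj]
  -- the sum over the pairs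
  have hsum : ∑ b ∈ bs f A D, ∑ j ∈ rts f P A b (q4 (b ^ 2 + D)), G (b + 2 * j) =
      ∑ y ∈ S.image (fun p => p.1 + 2 * p.2), G y := by
    rw [Finset.sum_image, hS, Finset.sum_sigma]
    intro p hp p' hp' h
    refine huniq p hp p' hp' ?_
    have h' : p.1 + 2 * p.2 = p'.1 + 2 * p'.2 := h
    rw [h', sub_self]
    exact Ideal.zero_mem _
  rw [hsum]
  refine hRSB.2.2 (ni k 2 * (P * A * f)) _ _ G ?_ ?_ hG
  · -- existence of a pair
    intro x hx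
    obtain ⟨hx1, hx2, hx3⟩ := (mem_bs k _ _ _ _).1 hx
    have hFx : Fm f D (P * A) x := ⟨hPA, hx2, hx3⟩
    have hFA : Fm f D A x := by
      refine ⟨hA, hx2, ?_⟩
      rw [hassoc2] at hx3
      exact Ideal.mul_mono_right hle2 hx3
    obtain ⟨-, q2, -, -, -, -⟩ := hTRV f (P * A) D x hf hFx
    obtain ⟨-, -, -, q4', -, -⟩ := hTRV f A D x hf hFA
    obtain ⟨b, ⟨hb1, hb2⟩, -⟩ := (hRSB.1 _ h2Af).1 x
    obtain ⟨a, ha, ha2⟩ := (mem_two k _ _).1 hb2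
    obtain ⟨hFb, hqb, -⟩ := q4' (-a) (neg_mem ha)
    have eb : x + 2 * -a = b := by linear_combination -ha2
    rw [eb] at hFb hqb
    obtain ⟨j, ⟨hj1, hj2⟩, -⟩ := (hRSB.1 _ hPAf).1 a
    have hjA : j ∈ A * f := by
      have := sub_mem ha (hle1 hj2)
      rwa [sub_sub_cancel] at this
    have hroot : j ^ 2 + b * j + q4 (b ^ 2 + D) ∈ P * (A * f ^ 2) := by
      have e1 : j ^ 2 + b * j + q4 (b ^ 2 + D) = q4 (x ^ 2 + D) - (a - j) * (2 * a) +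
          (a - j) * (a - j) - (a - j) * b := by
        linear_combination hqb + a * ha2
      have hle3 : P * (A * f) * f ≤ P * (A * f ^ 2) := le_of_eq (by ring)
      have hle4 : ∀ y ∈ P * (A * f), ∀ z ∈ f, y * z ∈ P * (A * f ^ 2) := fun y hy z hz =>
        hle3 (Ideal.mul_mem_mul hy hz)
      rw [e1]
      refine sub_mem (add_mem (sub_mem (hassoc2 ▸ q2) ?_) ?_) ?_
      · exact hle4 _ hj2 _ (Ideal.mul_mem_left _ _ (hlef ha))
      · exact hle4 _ hj2 _ (hlef (hle1 hj2))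
      · exact hle4 _ hj2 _ hFb.mem
    have hp : (⟨b, j⟩ : Σ _ : 𝓞 k, 𝓞 k) ∈ S :=
      (memS _).2 ⟨(mem_bs k _ _ _ _).2 ⟨hb1, hFb.mem, hFb.dis⟩,
        (mem_rts k _ _ _ _ _ _).2 ⟨hj1, hjA, hroot⟩⟩
    refine ⟨b + 2 * j, ⟨Finset.mem_image.2 ⟨⟨b, j⟩, hp, rfl⟩, ?_⟩, ?_⟩
    · refine (mem_two k _ _).2 ⟨a - j, by rw [hassoc]; exact hj2, ?_⟩
      linear_combination ha2
    · rintro y ⟨hy1, hy2⟩
      obtain ⟨p, hp', rfl⟩ := Finset.mem_image.1 hy1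
      have h1 : x - (b + 2 * j) ∈ ni k 2 * (P * A * f) := by
        refine (mem_two k _ _).2 ⟨a - j, by rw [hassoc]; exact hj2, ?_⟩
        linear_combination ha2
      have h2 := huniq p hp' ⟨b, j⟩ hp (by
        have := sub_mem h1 hy2
        have e : x - (b + 2 * j) - (x - (p.1 + 2 * p.2)) = (p.1 + 2 * p.2) - (b + 2 * j) := by ring
        rwa [e] at this)
      rw [h2]
  · intro y hy
    obtain ⟨⟨b, j⟩, hp, rfl⟩ := Finset.mem_image.1 hy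
    obtain ⟨h1, h2⟩ := (memS _).1 hp
    obtain ⟨a1, a2, a3⟩ := (mem_bs k _ _ _ _).1 h1
    have hFb : Fm f D A b := ⟨hA, a2, a3⟩
    obtain ⟨-, -, -, -, q5, -⟩ := hTRV f A D b hf hFb
    obtain ⟨hF, -⟩ := q5 P j hP h2
    obtain ⟨-, -, -, q4', -, -⟩ := hTRV f (P * A) D (b + 2 * j) hf hF
    obtain ⟨x, ⟨hx1, hx2⟩, -⟩ := (hRSB.1 _ h2PAf).1 (b + 2 * j)
    obtain ⟨a, ha, ha2⟩ := (mem_two k _ _).1 hx2
    obtain ⟨hFx, -, -⟩ := q4' (-a) (neg_mem ha)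
    have ex : b + 2 * j + 2 * -a = x := by linear_combination -ha2
    rw [ex] at hFx
    refine ⟨x, ⟨(mem_bs k _ _ _ _).2 ⟨hx1, hFx.mem, hFx.dis⟩, ?_⟩, ?_⟩
    · have := neg_mem hx2
      rwa [neg_sub] at this
    · rintro x' ⟨hx', hx'2⟩
      refine hR _ h2PAf x' x ((mem_bs k _ _ _ _).1 hx').1 hx1 ?_
      have := add_mem hx'2 hx2
      have e : x' - (b + 2 * j) + (b + 2 * j - x) = x' - x := by ring
      have h3 : x' - (b + 2 * j) + (b + 2 * j - x) ∈ ni k 2 * (P * A * f) := this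
      rwa [e] at h3

end Pool.Agent.H26.NVK
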